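import Mathlib

/-! Strongly graded rings from a group of units normalising a subring. -/

set_option autoImplicit false

namespace Pool.Agent.Q93.GS

open MonoidAlgebra

/-- `R = ⊕ R_g` with `R_g R_h ⊆ R_{gh}` -/
structure IsGrading {G R : Type} [Group G] [Ring R] (C : G → AddSubgroup R) : Prop where
  /-- every element is a sum of homogeneous elements in exactly one way -/
  decomp : ∀ r : R, ∃! c : G →₀ R, (∀ g, c g ∈ C g) ∧ c.sum (fun _ x => x) = r
  /-- the grading is multiplicative -/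
  mul_mem : ∀ g h : G, ∀ x ∈ C g, ∀ y ∈ C h, x * y ∈ C (g * h)

/-- strongly graded: `R_g R_h = R_{gh}` -/
def IsStrong {G R : Type} [Group G] [Ring R] (C : G → AddSubgroup R) : Prop :=
  ∀ g h : G, AddSubgroup.closure {z | ∃ x ∈ C g, ∃ y ∈ C h, z = x * y} = C (g * h)

/-- the ideal `I` is graded: it contains the homogeneous components of its elements -/
def IsGradedIdeal {G R : Type} [Group G] [Ring R] (C : G → AddSubgroup R) (I : TwoSidedIdeal R) : Prop :=
  ∀ c : G →₀ R, (∀ g, c g ∈ C g) → c.sum (fun _ x => x) ∈ I → ∀ g, c g ∈ I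

section
variable {T G : Type} [Ring T] [Group G] (A : Subring T) (w : G →* Tˣ)

/-- `w_g A w_g⁻¹ ⊆ A` -/
def Norm : Prop := ∀ g, ∀ a ∈ A, (w g : T) * a * ((w g)⁻¹ : Tˣ) ∈ A

variable {A w}

lemma single_ok (hN : Norm A w) {g h : G} {a b : T} (ha : a * ((w g)⁻¹ : Tˣ) ∈ A) (hb : b * ((w h)⁻¹ : Tˣ) ∈ A) :
    a * b * ((w (g * h))⁻¹ : Tˣ) ∈ A := by
  have h1 := A.mul_mem ha (hN g _ hb)
  have e : a * ((w g)⁻¹ : Tˣ) * ((w g : T) * (b * ((w h)⁻¹ : Tˣ)) * ((w g)⁻¹ : Tˣ)) = a * b * ((w (g * h))⁻¹ : Tˣ) := by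
    rw [map_mul, mul_inv_rev, Units.val_mul]
    have : (((w g)⁻¹ : Tˣ) : T) * (w g : T) = 1 := Units.inv_mul _
    calc a * ((w g)⁻¹ : Tˣ) * ((w g : T) * (b * ((w h)⁻¹ : Tˣ)) * ((w g)⁻¹ : Tˣ)) =
        a * ((((w g)⁻¹ : Tˣ) : T) * (w g : T)) * b * (((w h)⁻¹ : Tˣ) : T) * (((w g)⁻¹ : Tˣ) : T) := by noncomm_ring
      _ = _ := by rw [this]; noncomm_ring
  rwa [e] at h1

/-- the ring of the `∑ a_g w_g [g]`, `a_g ∈ A` -/
def RR (hN : Norm A w) : Subring (MonoidAlgebra T G) where
  carrier := {r | ∀ g, r.coeff g * ((w g)⁻¹ : Tˣ) ∈ A}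
  zero_mem' := by
    intro g
    simp
  add_mem' := by
    intro a b ha hb g
    have : (a + b).coeff g = a.coeff g + b.coeff g := by simp
    rw [this, add_mul]
    exact A.add_mem (ha g) (hb g)
  neg_mem' := by
    intro a ha g
    have : (-a).coeff g = -a.coeff g := by simp
    rw [this, neg_mul]
    exact A.neg_mem (ha g)
  one_mem' := by
    intro g
    classical
    rw [one_def, coeff_single, Finsupp.single_apply]
    split_ifs with h
    · subst h
      rw [map_one, inv_one, Units.val_one, mul_one]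
      exact A.one_mem
    · rw [zero_mul]
      exact A.zero_mem
  mul_mem' := by
    intro a b ha hb g
    classical
    rw [coeff_mul]
    rw [Finsupp.sum, Finset.sum_mul]
    refine sum_mem fun x _ => ?_
    rw [Finsupp.sum, Finset.sum_mul]
    refine sum_mem fun y _ => ?_
    split_ifs with h
    · subst h
      exact single_ok hN (ha x) (hb y)
    · rw [zero_mul]
      exact A.zero_mem

lemma mem_RR (hN : Norm A w) (r : MonoidAlgebra T G) : r ∈ RR hN ↔ ∀ g, r.coeff g * ((w g)⁻¹ : Tˣ) ∈ A := Iff.rfl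

lemma single_mem (hN : Norm A w) {g : G} {a : T} (ha : a * ((w g)⁻¹ : Tˣ) ∈ A) : single g a ∈ RR hN := by
  classical
  intro h
  rw [coeff_single, Finsupp.single_apply]
  split_ifs with e
  · subst e
    exact ha
  · rw [zero_mul]
    exact A.zero_mem

/-- the homogeneous components -/
def CC (hN : Norm A w) (g : G) : AddSubgroup (RR hN) where
  carrier := {r | ∀ h, h ≠ g → (r : MonoidAlgebra T G).coeff h = 0}
  zero_mem' := by
    intro h _
    simp
  add_mem' := by
    intro a b ha hb h hh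
    have : ((a + b : RR hN) : MonoidAlgebra T G).coeff h = (a : MonoidAlgebra T G).coeff h + (b : MonoidAlgebra T G).coeff h := by
      simp
    rw [this, ha h hh, hb h hh, add_zero]
  neg_mem' := by
    intro a ha h hh
    have : ((-a : RR hN) : MonoidAlgebra T G).coeff h = -(a : MonoidAlgebra T G).coeff h := by simp
    rw [this, ha h hh, neg_zero]

/-- the homogeneous element -/
noncomputable def sg (hN : Norm A w) (g : G) (a : T) (ha : a * ((w g)⁻¹ : Tˣ) ∈ A) : RR hN := ⟨single g a, single_mem hN ha⟩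

lemma sg_mem (hN : Norm A w) (g : G) (a : T) (ha : a * ((w g)⁻¹ : Tˣ) ∈ A) : sg hN g a ha ∈ CC hN g := by
  classical
  intro h hh
  show (single g a : MonoidAlgebra T G).coeff h = 0
  rw [coeff_single, Finsupp.single_apply, if_neg (Ne.symm hh)]

lemma sg_mul (hN : Norm A w) (g h : G) (a b : T) (ha : a * ((w g)⁻¹ : Tˣ) ∈ A) (hb : b * ((w h)⁻¹ : Tˣ) ∈ A) :
    sg hN g a ha * sg hN h b hb = sg hN (g * h) (a * b) (single_ok hN ha hb) := by
  apply Subtype.ext
  show single g a * single h b = single (g * h) (a * b)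
  rw [single_mul_single]

lemma eq_sg (hN : Norm A w) {g : G} {r : RR hN} (hr : r ∈ CC hN g) : r = sg hN g ((r : MonoidAlgebra T G).coeff g) (r.2 g) := by
  classical
  apply Subtype.ext
  show (r : MonoidAlgebra T G) = single g ((r : MonoidAlgebra T G).coeff g)
  apply coeff_injective
  ext h
  rw [coeff_single, Finsupp.single_apply]
  split_ifs with e
  · rw [e]
  · exact hr h (Ne.symm e)

/-- the component of degree `g` -/
lemma sum_coeff (hN : Norm A w) (c : G →₀ RR hN) (hc : ∀ g, c g ∈ CC hN g) (g : G) :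
    ((c.sum fun _ x => x : RR hN) : MonoidAlgebra T G).coeff g = (c g : MonoidAlgebra T G).coeff g := by
  classical
  have h1 : ((c.sum fun _ x => x : RR hN) : MonoidAlgebra T G) = ∑ h ∈ c.support, (c h : MonoidAlgebra T G) := by
    rw [Finsupp.sum]
    exact map_sum (RR hN).subtype _ _
  rw [h1, coeff_sum, Finsupp.finsetSum_apply]
  by_cases hg : g ∈ c.support
  · rw [Finset.sum_eq_single g]
    · intro h _ hh
      exact hc h g (Ne.symm hh)
    · intro h
      exact absurd hg h
  · rw [Finset.sum_eq_zero]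
    · rw [Finsupp.notMem_support_iff] at hg
      rw [hg]
      simp
    · intro h hh
      apply hc h g
      rintro rfl
      exact hg hh

lemma isGrading (hN : Norm A w) : IsGrading (CC hN) := by
  classical
  refine ⟨fun r => ?_, ?_⟩
  · let c : G →₀ RR hN := Finsupp.onFinset (r : MonoidAlgebra T G).coeff.support
      (fun g => sg hN g ((r : MonoidAlgebra T G).coeff g) (r.2 g)) (by
        intro g hg
        rw [Finsupp.mem_support_iff]
        intro h0
        apply hg
        apply Subtype.ext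
        show single g ((r : MonoidAlgebra T G).coeff g) = (0 : MonoidAlgebra T G)
        rw [h0, single_zero])
    have hc : ∀ g, c g = sg hN g ((r : MonoidAlgebra T G).coeff g) (r.2 g) := fun _ => rfl
    have hcm : ∀ g, c g ∈ CC hN g := fun g => by
      rw [hc]
      exact sg_mem hN _ _ _
    refine ⟨c, ⟨hcm, ?_⟩, ?_⟩
    · apply Subtype.ext
      apply coeff_injective
      ext g
      rw [sum_coeff hN c hcm g, hc]
      show (single g ((r : MonoidAlgebra T G).coeff g) : MonoidAlgebra T G).coeff g = _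
      rw [coeff_single, Finsupp.single_eq_same]
    · rintro c' ⟨h1, h2⟩
      ext1 g
      rw [eq_sg hN (h1 g), hc]
      have := sum_coeff hN c' h1 g
      rw [h2] at this
      apply Subtype.ext
      show single g _ = single g _
      rw [this]
  · intro g h x hx y hy
    rw [eq_sg hN hx, eq_sg hN hy, sg_mul]
    exact sg_mem hN _ _ _

/-- the unit of degree `g` -/
lemma unit_ok (A : Subring T) (w : G →* Tˣ) (g : G) : (w g : T) * ((w g)⁻¹ : Tˣ) ∈ A := by
  rw [Units.mul_inv]
  exact A.one_mem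

lemma isStrong (hN : Norm A w) : IsStrong (CC hN) := by
  intro g h
  apply le_antisymm
  · rw [AddSubgroup.closure_le]
    rintro _ ⟨x, hx, y, hy, rfl⟩
    exact (isGrading hN).mul_mem g h x hx y hy
  · intro z hz
    apply AddSubgroup.subset_closure
    refine ⟨sg hN g (w g) (unit_ok A w g), sg_mem hN _ _ _, ?_⟩
    obtain ⟨q, hq⟩ : ∃ q, q = (z : MonoidAlgebra T G).coeff (g * h) := ⟨_, rfl⟩
    have hz2 : q * ((w (g * h))⁻¹ : Tˣ) ∈ A := by
      rw [hq]
      exact z.2 (g * h)
    have e0 : (w (g * h))⁻¹ = (w h)⁻¹ * (w g)⁻¹ := by rw [map_mul, mul_inv_rev]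
    have hb : ((((w g)⁻¹ : Tˣ) : T) * q) * ((w h)⁻¹ : Tˣ) ∈ A := by
      have h1 := hN g⁻¹ _ hz2
      rw [map_inv, inv_inv, e0, Units.val_mul] at h1
      have e : (((w g)⁻¹ : Tˣ) : T) * (q * ((((w h)⁻¹ : Tˣ) : T) * (((w g)⁻¹ : Tˣ) : T))) * (w g : T) =
          ((((w g)⁻¹ : Tˣ) : T) * q) * ((w h)⁻¹ : Tˣ) := by
        have : (((w g)⁻¹ : Tˣ) : T) * (w g : T) = 1 := Units.inv_mul _
        calc _ = (((w g)⁻¹ : Tˣ) : T) * q * (((w h)⁻¹ : Tˣ) : T) * ((((w g)⁻¹ : Tˣ) : T) * (w g : T)) := by
              noncomm_ring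
          _ = _ := by rw [this, mul_one]
      rwa [e] at h1
    refine ⟨sg hN h _ hb, sg_mem hN _ _ _, ?_⟩
    rw [sg_mul]
    refine (eq_sg hN hz).trans ?_
    apply Subtype.ext
    show single (g * h) _ = single (g * h) _
    rw [← hq, ← mul_assoc, Units.mul_inv, one_mul]

lemma one_ok {x : T} (hx : x ∈ A) : x * ((w 1)⁻¹ : Tˣ) ∈ A := by
  rw [map_one, inv_one, Units.val_one, mul_one]
  exact hx

/-- the elements of degree one -/
noncomputable def s1 (hN : Norm A w) (x : T) (hx : x ∈ A) : RR hN := sg hN 1 x (one_ok hx)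

/-- the units -/
noncomputable def ug (hN : Norm A w) (g : G) : RR hN := sg hN g (w g) (unit_ok A w g)

lemma s1_mul (hN : Norm A w) (x y : T) (hx : x ∈ A) (hy : y ∈ A) :
    s1 hN x hx * s1 hN y hy = s1 hN (x * y) (A.mul_mem hx hy) := by
  apply Subtype.ext
  show single 1 x * single 1 y = single 1 (x * y)
  rw [single_mul_single, mul_one]

lemma s1_conj (hN : Norm A w) (g : G) (x : T) (hx : x ∈ A) :
    ug hN g * s1 hN x hx * ug hN g⁻¹ = s1 hN ((w g : T) * x * ((w g)⁻¹ : Tˣ)) (hN g x hx) := by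
  apply Subtype.ext
  show single g (w g : T) * single 1 x * single g⁻¹ (w g⁻¹ : T) = single 1 _
  rw [single_mul_single, single_mul_single, mul_one, mul_inv_cancel, map_inv]

/-- `A` has no proper ideals invariant under the `w g` -/
def InvSimple (A : Subring T) (w : G →* Tˣ) : Prop :=
  ∀ J : AddSubgroup T, (∀ x ∈ J, x ∈ A) → (∀ a ∈ A, ∀ x ∈ J, a * x ∈ J ∧ x * a ∈ J) →
    (∀ g, ∀ x ∈ J, (w g : T) * x * ((w g)⁻¹ : Tˣ) ∈ J) → (∃ x ∈ J, x ≠ 0) → (1 : T) ∈ J

theorem gradedSimple (hN : Norm A w) (hS : InvSimple A w) (I : TwoSidedIdeal (RR hN)) (hI : IsGradedIdeal (CC hN) I) :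
    I = ⊥ ∨ I = ⊤ := by
  classical
  by_cases h : ∀ x ∈ I, x = 0
  · left
    apply TwoSidedIdeal.ext
    intro x
    rw [TwoSidedIdeal.mem_bot]
    exact ⟨h x, fun e => by rw [e]; exact I.zero_mem⟩
  · right
    push Not at h
    obtain ⟨r, hr, hr0⟩ := h
    obtain ⟨c, ⟨hc1, hc2⟩, -⟩ := (isGrading hN).decomp r
    obtain ⟨g, hg⟩ : ∃ g, c g ≠ 0 := by
      by_contra hcon
      push Not at hcon
      apply hr0
      rw [← hc2, Finsupp.sum]
      exact Finset.sum_eq_zero fun g _ => hcon g
    have hcg : c g ∈ I := hI c hc1 (by rw [hc2]; exact hr) g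
    obtain ⟨b, hb⟩ : ∃ b, b = (c g : MonoidAlgebra T G).coeff g := ⟨_, rfl⟩
    have hbA : b * ((w g)⁻¹ : Tˣ) ∈ A := by rw [hb]; exact (c g).2 g
    have hcg2 : c g = sg hN g b hbA := by
      refine (eq_sg hN (hc1 g)).trans ?_
      apply Subtype.ext
      show single g _ = single g _
      rw [hb]
    have hb0 : b ≠ 0 := by
      rintro rfl
      apply hg
      rw [hcg2]
      apply Subtype.ext
      show single g (0 : T) = 0
      rw [single_zero]
    let J : AddSubgroup T :=
      { carrier := {x | ∃ hx : x ∈ A, s1 hN x hx ∈ I}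
        zero_mem' := ⟨A.zero_mem, by
          have : s1 hN 0 A.zero_mem = 0 := by
            apply Subtype.ext
            show single 1 (0 : T) = 0
            rw [single_zero]
          rw [this]
          exact I.zero_mem⟩
        add_mem' := by
          rintro x y ⟨hx, hx'⟩ ⟨hy, hy'⟩
          refine ⟨A.add_mem hx hy, ?_⟩
          have : s1 hN (x + y) (A.add_mem hx hy) = s1 hN x hx + s1 hN y hy := by
            apply Subtype.ext
            show single 1 (x + y) = single 1 x + single 1 y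
            rw [single_add]
          rw [this]
          exact I.add_mem hx' hy'
        neg_mem' := by
          rintro x ⟨hx, hx'⟩
          refine ⟨A.neg_mem hx, ?_⟩
          have : s1 hN (-x) (A.neg_mem hx) = -s1 hN x hx := by
            apply Subtype.ext
            show single 1 (-x) = -single 1 x
            rw [single_neg]
          rw [this]
          exact I.neg_mem hx' }
    have hJ : ∀ x, x ∈ J ↔ ∃ hx : x ∈ A, s1 hN x hx ∈ I := fun x => Iff.rfl
    have h1 : (1 : T) ∈ J := by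
      refine hS J ?_ ?_ ?_ ⟨b * ((w g)⁻¹ : Tˣ), ?_, ?_⟩
      · rintro x ⟨hx, -⟩
        exact hx
      · rintro a ha x ⟨hx, hx'⟩
        exact ⟨⟨A.mul_mem ha hx, by rw [← s1_mul hN a x ha hx]; exact I.mul_mem_left _ _ hx'⟩,
          ⟨A.mul_mem hx ha, by rw [← s1_mul hN x a hx ha]; exact I.mul_mem_right _ _ hx'⟩⟩
      · rintro g' x ⟨hx, hx'⟩
        refine ⟨hN g' x hx, ?_⟩
        rw [← s1_conj hN g' x hx]
        exact I.mul_mem_right _ _ (I.mul_mem_left _ _ hx')
      · refine ⟨hbA, ?_⟩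
        have : s1 hN (b * ((w g)⁻¹ : Tˣ)) hbA = c g * ug hN g⁻¹ := by
          rw [hcg2]
          apply Subtype.ext
          show single 1 _ = single g b * single g⁻¹ (w g⁻¹ : T)
          rw [single_mul_single, mul_inv_cancel, map_inv]
        rw [this]
        exact I.mul_mem_right _ _ hcg
      · intro h0
        apply hb0
        have := congrArg (fun z => z * (w g : T)) h0
        simp only [zero_mul] at this
        rwa [mul_assoc, Units.inv_mul, mul_one] at this
    obtain ⟨h2, h3⟩ := h1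
    have h4 : s1 hN 1 h2 = 1 := by
      apply Subtype.ext
      show single 1 (1 : T) = 1
      rfl
    rw [h4] at h3
    exact (TwoSidedIdeal.one_mem_iff I).1 h3

/-- no element of `A w_g`, `g ≠ 1`, commutes with `A` -/
def NoComm (A : Subring T) (w : G →* Tˣ) : Prop :=
  ∀ g : G, g ≠ 1 → ∀ a ∈ A, (∀ x ∈ A, a * (w g : T) * x = x * (a * (w g : T))) → a = 0

theorem central (hN : Norm A w) (hC : NoComm A w) (r : RR hN) (hr : ∀ a ∈ CC hN 1, r * a = a * r) : r ∈ CC hN 1 := by
  classical
  intro g hg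
  have h1 := hC g hg ((r : MonoidAlgebra T G).coeff g * ((w g)⁻¹ : Tˣ)) (r.2 g) (by
    intro x hx
    have h2 := hr (s1 hN x hx) (sg_mem hN _ _ _)
    have h3 := congrArg (fun z : RR hN => (z : MonoidAlgebra T G).coeff g) h2
    have h4 : ((r : MonoidAlgebra T G) * single 1 x).coeff g = (single 1 x * (r : MonoidAlgebra T G)).coeff g := h3
    rw [coeff_mul_single_one, coeff_single_one_mul] at h4
    rw [mul_assoc ((r : MonoidAlgebra T G).coeff g), Units.inv_mul, mul_one]
    exact h4)
  have := congrArg (fun z => z * (w g : T)) h1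
  simp only [zero_mul] at this
  rwa [mul_assoc, Units.inv_mul, mul_one] at this

/-- the augmentation -/
noncomputable def aug (T G : Type) [Ring T] [Group G] : MonoidAlgebra T G →+* T :=
  liftNCRingHom (RingHom.id T) 1 (fun _ _ => Commute.one_right _)

lemma aug_single (g : G) (a : T) : aug T G (single g a) = a := by
  unfold aug
  rw [liftNCRingHom_single]
  simp

theorem exists_ideal [Nontrivial T] (hN : Norm A w) (hV : ∃ g : G, g ≠ 1 ∧ ∃ a ∈ A, a ≠ 0 ∧ a * (w g : T) ∈ A) :
    ∃ I : TwoSidedIdeal (RR hN), I ≠ ⊥ ∧ I ≠ ⊤ := by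
  classical
  obtain ⟨g, hg, a, ha, ha0, haw⟩ := hV
  let ρ : RR hN →+* T := (aug T G).comp (RR hN).subtype
  have hg1 : a * (w g : T) * ((w g)⁻¹ : Tˣ) ∈ A := by
    rw [mul_assoc, Units.mul_inv, mul_one]
    exact ha
  have hz : sg hN g (a * (w g : T)) hg1 - s1 hN (a * (w g : T)) haw ∈ TwoSidedIdeal.ker ρ := by
    rw [TwoSidedIdeal.mem_ker, map_sub]
    show aug T G (single g (a * (w g : T))) - aug T G (single 1 (a * (w g : T))) = 0
    rw [aug_single, aug_single, sub_self]
  refine ⟨TwoSidedIdeal.ker ρ, ?_, ?_⟩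
  · intro h
    rw [h, TwoSidedIdeal.mem_bot, sub_eq_zero] at hz
    have h1 := congrArg (fun z : RR hN => (z : MonoidAlgebra T G).coeff g) hz
    have h2 : (single g (a * (w g : T)) : MonoidAlgebra T G).coeff g = (single 1 (a * (w g : T)) : MonoidAlgebra T G).coeff g := h1
    rw [coeff_single, coeff_single, Finsupp.single_eq_same, Finsupp.single_apply, if_neg (Ne.symm hg)] at h2
    apply ha0
    have := congrArg (fun z => z * (((w g)⁻¹ : Tˣ) : T)) h2
    simp only [zero_mul] at this
    rwa [mul_assoc, Units.mul_inv, mul_one] at this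
  · intro h
    have h1 : (1 : RR hN) ∈ TwoSidedIdeal.ker ρ := by
      rw [h]
      exact TwoSidedIdeal.mem_top _
    rw [TwoSidedIdeal.mem_ker, map_one] at h1
    exact one_ne_zero h1

end

end Pool.Agent.Q93.GS
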