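import Mathlib
import Pool.Agent.Q93.GS.Abs

/-! The concrete system: a group of exponent two acting on a compact space with an unbounded cochain. -/

set_option autoImplicit false

namespace Pool.Agent.Q93.GS

/-- the translation group -/
abbrev Gm := ℕ →₀ ZMod 2
/-- the odometer space -/
abbrev YY := ℕ → ZMod 2
/-- the space -/
abbrev Om := YY × (Gm → ZMod 2)

/-- the finite subgroup of level `m` -/
def InG (m : ℕ) (s : Gm) : Prop := ∀ i, m ≤ i → s i = 0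

/-- translations -/
noncomputable def tr (γ : Gm) (ω : Om) : Om := (fun i => ω.1 i + γ i, fun s => ω.2 (s + γ))
/-- the commuting action -/
def ac (f : YY → ZMod 2) (ω : Om) : Om := (ω.1, fun s => ω.2 s + f (fun i => ω.1 i + s i))

lemma add_self2 (a : ZMod 2) : a + a = 0 := CharTwo.add_self_eq_zero a

lemma gm_add_self (γ : Gm) : γ + γ = 0 := by
  ext i
  exact add_self2 _

lemma tr_tr (γ δ : Gm) (ω : Om) : tr γ (tr δ ω) = tr (γ + δ) ω := by
  unfold tr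
  ext i
  · simp only [Finsupp.add_apply]
    ring
  · simp only [add_assoc]

lemma tr_zero (ω : Om) : tr 0 ω = ω := by
  unfold tr
  ext i
  · simp
  · simp

lemma ac_ac (f g : YY → ZMod 2) (ω : Om) : ac f (ac g ω) = ac (f + g) ω := by
  unfold ac
  ext i
  · rfl
  · simp only [Pi.add_apply]
    ring

lemma ac_zero (ω : Om) : ac 0 ω = ω := by
  unfold ac
  ext i
  · rfl
  · simp

lemma ac_tr (f : YY → ZMod 2) (γ : Gm) (ω : Om) : ac f (tr γ ω) = tr γ (ac f ω) := by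
  unfold ac tr
  ext i
  · rfl
  · simp only [Finsupp.add_apply]
    congr 2
    funext j
    ring

lemma tr_self (γ : Gm) (ω : Om) : tr γ (tr γ ω) = ω := by rw [tr_tr, gm_add_self, tr_zero]

/-- agreement up to level `m` -/
def rel (m : ℕ) (ω ω' : Om) : Prop := (∀ i < m, ω.1 i = ω'.1 i) ∧ ∀ s, InG m s → ω.2 s = ω'.2 s

lemma InG.mono {m n : ℕ} (h : m ≤ n) {s : Gm} (hs : InG m s) : InG n s := fun i hi => hs i (h.trans hi)

lemma InG.add {m : ℕ} {s t : Gm} (hs : InG m s) (ht : InG m t) : InG m (s + t) := fun i hi => by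
  rw [Finsupp.add_apply, hs i hi, ht i hi, add_zero]

lemma exists_InG (s : Gm) : ∃ m, InG m s := by
  classical
  refine ⟨s.support.sup id + 1, fun i hi => ?_⟩
  by_contra h
  have h1 : i ∈ s.support := Finsupp.mem_support_iff.2 h
  have h2 : i ≤ s.support.sup id := Finset.le_sup (f := id) h1
  omega

lemma rel.mono {m n : ℕ} (h : m ≤ n) {ω ω' : Om} (hr : rel n ω ω') : rel m ω ω' :=
  ⟨fun i hi => hr.1 i (hi.trans_le h), fun s hs => hr.2 s (hs.mono h)⟩

lemma rel.refl (m : ℕ) (ω : Om) : rel m ω ω := ⟨fun _ _ => rfl, fun _ _ => rfl⟩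

lemma rel.symm {m : ℕ} {ω ω' : Om} (h : rel m ω ω') : rel m ω' ω :=
  ⟨fun i hi => (h.1 i hi).symm, fun s hs => (h.2 s hs).symm⟩

lemma rel.trans {m : ℕ} {ω ω' ω'' : Om} (h : rel m ω ω') (h' : rel m ω' ω'') : rel m ω ω'' :=
  ⟨fun i hi => (h.1 i hi).trans (h'.1 i hi), fun s hs => (h.2 s hs).trans (h'.2 s hs)⟩

lemma rel.tr {m : ℕ} {ω ω' : Om} (h : rel m ω ω') {γ : Gm} (hγ : InG m γ) : rel m (tr γ ω) (tr γ ω') := by
  refine ⟨fun i hi => ?_, fun s hs => ?_⟩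
  · show ω.1 i + γ i = ω'.1 i + γ i
    rw [h.1 i hi]
  · exact h.2 _ (hs.add hγ)

/-- functions of finitely many coordinates -/
def lev (m : ℕ) (f : YY → ZMod 2) : Prop := ∀ y y' : YY, (∀ i < m, y i = y' i) → f y = f y'

lemma lev.mono {m n : ℕ} (h : m ≤ n) {f : YY → ZMod 2} (hf : lev m f) : lev n f :=
  fun y y' hy => hf y y' fun i hi => hy i (hi.trans_le h)

lemma lev.add {m : ℕ} {f g : YY → ZMod 2} (hf : lev m f) (hg : lev m g) : lev m (f + g) :=
  fun y y' hy => by rw [Pi.add_apply, Pi.add_apply, hf y y' hy, hg y y' hy]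

/-- the group of functions of finitely many coordinates -/
def LL : AddSubgroup (YY → ZMod 2) where
  carrier := {f | ∃ m, lev m f}
  zero_mem' := ⟨0, fun _ _ _ => rfl⟩
  add_mem' := by
    rintro f g ⟨m, hm⟩ ⟨n, hn⟩
    exact ⟨max m n, (hm.mono (le_max_left _ _)).add (hn.mono (le_max_right _ _))⟩
  neg_mem' := by
    rintro f ⟨m, hm⟩
    refine ⟨m, fun y y' hy => ?_⟩
    rw [Pi.neg_apply, Pi.neg_apply, hm y y' hy]

lemma rel.ac {m : ℕ} {ω ω' : Om} (h : rel m ω ω') {f : YY → ZMod 2} (hf : lev m f) : rel m (ac f ω) (ac f ω') := by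
  refine ⟨h.1, fun s hs => ?_⟩
  show ω.2 s + f _ = ω'.2 s + f _
  rw [h.2 s hs]
  congr 1
  apply hf
  intro i hi
  rw [h.1 i hi]

/-- the first window on which `ξ` is not zero -/
noncomputable def nn (ξ : Gm → ZMod 2) : ℕ := sInf {m | ∃ s, InG m s ∧ ξ s ≠ 0}

lemma nn_loc {m : ℕ} {ξ ξ' : Gm → ZMod 2} (h : ∀ s, InG m s → ξ s = ξ' s) (hne : ∃ s, InG m s ∧ ξ s ≠ 0) :
    nn ξ = nn ξ' := by
  have hne' : ∃ s, InG m s ∧ ξ' s ≠ 0 := by
    obtain ⟨s, hs, h0⟩ := hne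
    exact ⟨s, hs, by rwa [← h s hs]⟩
  have key : ∀ {ξ ξ' : Gm → ZMod 2}, (∀ s, InG m s → ξ s = ξ' s) → (∃ s, InG m s ∧ ξ s ≠ 0) → nn ξ' ≤ nn ξ := by
    intro ξ ξ' h hne
    have h1 : nn ξ ∈ {m | ∃ s, InG m s ∧ ξ s ≠ 0} := Nat.sInf_mem ⟨m, hne⟩
    have h2 : nn ξ ≤ m := Nat.sInf_le hne
    apply Nat.sInf_le
    obtain ⟨s, hs, h0⟩ := h1
    exact ⟨s, hs, by rwa [← h s (hs.mono h2)]⟩
  exact le_antisymm (key (fun s hs => (h s hs).symm) hne') (key h hne)

lemma nn_eq {k : ℕ} {ξ : Gm → ZMod 2} (h0 : ∀ s, InG k s → ξ s = 0) (h1 : ∃ s, InG (k + 1) s ∧ ξ s ≠ 0) :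
    nn ξ = k + 1 := by
  apply le_antisymm
  · exact Nat.sInf_le h1
  · have h2 : nn ξ ∈ {m | ∃ s, InG m s ∧ ξ s ≠ 0} := Nat.sInf_mem ⟨k + 1, h1⟩
    by_contra hlt
    push Not at hlt
    obtain ⟨s, hs, hn⟩ := h2
    exact hn (h0 s (hs.mono (by omega)))

lemma nn_tr {k : ℕ} {γ : Gm} (hγ : InG k γ) {ξ : Gm → ZMod 2} (h0 : ∀ s, InG k s → ξ s = 0) :
    nn (fun s => ξ (s + γ)) = nn ξ := by
  unfold nn
  congr 1
  ext m
  simp only [Set.mem_ofPred_eq]
  rcases le_total k m with hkm | hkm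
  · constructor
    · rintro ⟨s, hs, hn⟩
      exact ⟨s + γ, hs.add (hγ.mono hkm), hn⟩
    · rintro ⟨s, hs, hn⟩
      refine ⟨s + γ, hs.add (hγ.mono hkm), ?_⟩
      rwa [add_assoc, gm_add_self, add_zero]
  · constructor
    · rintro ⟨s, hs, hn⟩
      exact absurd (h0 _ ((hs.mono hkm).add hγ)) hn
    · rintro ⟨s, hs, hn⟩
      exact absurd (h0 _ (hs.mono hkm)) hn

/-- the unbounded cochain -/
noncomputable def ep (ω : Om) : ZMod 2 := (nn ω.2 : ZMod 2)

lemma ep_cob {k : ℕ} {γ : Gm} (hγ : InG k γ) {ω ω' : Om} (h : rel k ω ω') :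
    ep (tr γ ω) + ep ω = ep (tr γ ω') + ep ω' := by
  by_cases h0 : ∀ s, InG k s → ω.2 s = 0
  · have h0' : ∀ s, InG k s → ω'.2 s = 0 := fun s hs => by rw [← h.2 s hs]; exact h0 s hs
    have e1 : ep (tr γ ω) = ep ω := by
      unfold ep
      congr 1
      exact nn_tr hγ h0
    have e2 : ep (tr γ ω') = ep ω' := by
      unfold ep
      congr 1
      exact nn_tr hγ h0'
    rw [e1, e2, add_self2, add_self2]
  · push Not at h0
    obtain ⟨s, hs, hn⟩ := h0
    have e1 : ep ω = ep ω' := by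
      unfold ep
      rw [nn_loc h.2 ⟨s, hs, hn⟩]
    have e2 : ep (tr γ ω) = ep (tr γ ω') := by
      unfold ep
      rw [nn_loc (h.tr hγ).2 ⟨s + γ, hs.add hγ, ?_⟩]
      show ω.2 (s + γ + γ) ≠ 0
      rwa [add_assoc, gm_add_self, add_zero]
    rw [e1, e2]

/-- the sums of translates of the cochain -/
noncomputable def EE : (LL →₀ ZMod 2) →ₗ[ZMod 2] (Om → ZMod 2) :=
  Finsupp.linearCombination (ZMod 2) (fun (f : LL) ω => ep (ac f ω))

lemma EE_single (f : LL) (a : ZMod 2) (ω : Om) : EE (Finsupp.single f a) ω = a * ep (ac f ω) := by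
  unfold EE
  rw [Finsupp.linearCombination_single]
  rfl

lemma EE_apply (n : LL →₀ ZMod 2) (ω : Om) : EE n ω = ∑ f ∈ n.support, n f * ep (ac f ω) := by
  unfold EE
  rw [Finsupp.linearCombination_apply, Finsupp.sum, Finset.sum_apply]
  rfl

lemma EE_cob (n : LL →₀ ZMod 2) (γ : Gm) : ∃ m, ∀ ω ω', rel m ω ω' → EE n (tr γ ω) + EE n ω = EE n (tr γ ω') + EE n ω' := by
  induction n using Finsupp.induction_linear with
  | zero => exact ⟨0, fun ω ω' _ => by simp⟩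
  | add n n' h h' =>
    obtain ⟨m, hm⟩ := h
    obtain ⟨m', hm'⟩ := h'
    refine ⟨max m m', fun ω ω' hr => ?_⟩
    have e1 := hm ω ω' (hr.mono (le_max_left _ _))
    have e2 := hm' ω ω' (hr.mono (le_max_right _ _))
    rw [map_add]
    simp only [Pi.add_apply]
    linear_combination e1 + e2
  | single f a =>
    obtain ⟨m, hm⟩ := exists_InG γ
    obtain ⟨m', hm'⟩ := f.2
    refine ⟨max m m', fun ω ω' hr => ?_⟩
    have e1 := ep_cob (hm.mono (le_max_left m m')) (hr.ac (hm'.mono (le_max_right m m')))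
    rw [EE_single, EE_single, EE_single, EE_single, ac_tr, ac_tr]
    linear_combination a * e1

lemma EE_shift (n : LL →₀ ZMod 2) (f : LL) : ∃ n' : LL →₀ ZMod 2, ∀ ω, EE n (ac f ω) = EE n' ω := by
  induction n using Finsupp.induction_linear with
  | zero => exact ⟨0, fun ω => by simp⟩
  | add n n' h h' =>
    obtain ⟨m, hm⟩ := h
    obtain ⟨m', hm'⟩ := h'
    refine ⟨m + m', fun ω => ?_⟩
    rw [map_add, map_add]
    simp only [Pi.add_apply]
    rw [hm, hm']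
  | single g a =>
    refine ⟨Finsupp.single (g + f) a, fun ω => ?_⟩
    rw [EE_single, EE_single, ac_ac]
    rfl

/-- the sign character -/
def ch (a : ZMod 2) : ℚ := if a = 0 then 1 else -1

lemma ch_zero : ch 0 = 1 := by simp [ch]

lemma ch_add (a b : ZMod 2) : ch (a + b) = ch a * ch b := by
  have h : ∀ a b : ZMod 2, (a = 0 ∧ b = 0 ∧ a + b = 0) ∨ (a = 0 ∧ b ≠ 0 ∧ a + b ≠ 0) ∨ (a ≠ 0 ∧ b = 0 ∧ a + b ≠ 0) ∨
      (a ≠ 0 ∧ b ≠ 0 ∧ a + b = 0) := by decide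
  unfold ch
  rcases h a b with ⟨h1, h2, h3⟩ | ⟨h1, h2, h3⟩ | ⟨h1, h2, h3⟩ | ⟨h1, h2, h3⟩
  · rw [if_pos h1, if_pos h2, if_pos h3]; norm_num
  · rw [if_pos h1, if_neg h2, if_neg h3]; norm_num
  · rw [if_neg h1, if_pos h2, if_neg h3]; norm_num
  · rw [if_neg h1, if_neg h2, if_pos h3]; norm_num

lemma ch_sq (a : ZMod 2) : ch a * ch a = 1 := by rw [← ch_add, add_self2, ch_zero]

lemma ch_ne (a : ZMod 2) : ch a ≠ 0 := fun h => by
  have := ch_sq a
  rw [h] at this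
  norm_num at this

/-- locally constant functions -/
def BB : Subring (Om → ℚ) where
  carrier := {b | ∃ m, ∀ ω ω', rel m ω ω' → b ω = b ω'}
  zero_mem' := ⟨0, fun _ _ _ => rfl⟩
  one_mem' := ⟨0, fun _ _ _ => rfl⟩
  add_mem' := by
    rintro b b' ⟨m, hm⟩ ⟨m', hm'⟩
    refine ⟨max m m', fun ω ω' h => ?_⟩
    rw [Pi.add_apply, Pi.add_apply, hm ω ω' (h.mono (le_max_left _ _)), hm' ω ω' (h.mono (le_max_right _ _))]
  neg_mem' := by
    rintro b ⟨m, hm⟩
    refine ⟨m, fun ω ω' h => ?_⟩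
    rw [Pi.neg_apply, Pi.neg_apply, hm ω ω' h]
  mul_mem' := by
    rintro b b' ⟨m, hm⟩ ⟨m', hm'⟩
    refine ⟨max m m', fun ω ω' h => ?_⟩
    rw [Pi.mul_apply, Pi.mul_apply, hm ω ω' (h.mono (le_max_left _ _)), hm' ω ω' (h.mono (le_max_right _ _))]

lemma mem_BB (b : Om → ℚ) : b ∈ BB ↔ ∃ m, ∀ ω ω', rel m ω ω' → b ω = b ω' := Iff.rfl

lemma BB_tr {b : Om → ℚ} (hb : b ∈ BB) (γ : Gm) : (fun ω => b (tr γ ω)) ∈ BB := by
  obtain ⟨m, hm⟩ := hb
  obtain ⟨k, hk⟩ := exists_InG γ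
  exact ⟨max m k, fun ω ω' h => hm _ _ ((h.tr (hk.mono (le_max_right m k))).mono (le_max_left _ _))⟩

lemma BB_ac {b : Om → ℚ} (hb : b ∈ BB) (f : LL) : (fun ω => b (ac f ω)) ∈ BB := by
  obtain ⟨m, hm⟩ := hb
  obtain ⟨k, hk⟩ := f.2
  exact ⟨max m k, fun ω ω' h => hm _ _ ((h.ac (hk.mono (le_max_right m k))).mono (le_max_left _ _))⟩

/-- the operators -/
abbrev TT := Module.End ℚ (Om → ℚ)

/-- weighted substitution -/
def op (b : Om → ℚ) (θ : Om → Om) : TT where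
  toFun F := fun ω => b ω * F (θ ω)
  map_add' F F' := by
    funext ω
    simp only [Pi.add_apply]
    ring
  map_smul' r F := by
    funext ω
    simp only [Pi.smul_apply, smul_eq_mul, RingHom.id_apply]
    ring

lemma op_apply (b : Om → ℚ) (θ : Om → Om) (F : Om → ℚ) (ω : Om) : op b θ F ω = b ω * F (θ ω) := rfl

lemma op_mul (b b' : Om → ℚ) (θ θ' : Om → Om) :
    op b θ * op b' θ' = op (fun ω => b ω * b' (θ ω)) (fun ω => θ' (θ ω)) := by
  apply LinearMap.ext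
  intro F
  funext ω
  show b ω * (b' (θ ω) * F (θ' (θ ω))) = b ω * b' (θ ω) * F (θ' (θ ω))
  ring

lemma op_one : op 1 (fun ω => ω) = 1 := by
  apply LinearMap.ext
  intro F
  funext ω
  show (1 : ℚ) * F ω = F ω
  ring

lemma op_add (b b' : Om → ℚ) (θ : Om → Om) : op (b + b') θ = op b θ + op b' θ := by
  apply LinearMap.ext
  intro F
  funext ω
  show (b ω + b' ω) * F (θ ω) = b ω * F (θ ω) + b' ω * F (θ ω)
  ring

lemma op_zero (θ : Om → Om) : op 0 θ = 0 := by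
  apply LinearMap.ext
  intro F
  funext ω
  show (0 : ℚ) * F (θ ω) = 0
  ring

lemma op_neg (b : Om → ℚ) (θ : Om → Om) : op (-b) θ = -op b θ := by
  apply LinearMap.ext
  intro F
  funext ω
  show -b ω * F (θ ω) = -(b ω * F (θ ω))
  ring

/-- the ring of the small operators -/
def AA : Subring TT := Subring.closure {t | ∃ b ∈ BB, ∃ γ, t = op b (tr γ)}

lemma op_mem {b : Om → ℚ} (hb : b ∈ BB) (γ : Gm) : op b (tr γ) ∈ AA := Subring.subset_closure ⟨b, hb, γ, rfl⟩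

lemma tr_zero' : tr 0 = fun ω => ω := funext tr_zero

lemma op_mem' {b : Om → ℚ} (hb : b ∈ BB) : op b (fun ω => ω) ∈ AA := by
  rw [← tr_zero']
  exact op_mem hb 0

lemma nf {t : TT} (ht : t ∈ AA) : ∃ c : Gm →₀ (Om → ℚ), (∀ γ, c γ ∈ BB) ∧ t = c.sum (fun γ b => op b (tr γ)) := by
  classical
  rw [AA, Subring.mem_closure_iff] at ht
  have hP : ∀ x : TT, x ∈ Submonoid.closure {t | ∃ b ∈ BB, ∃ γ, t = op b (tr γ)} → ∃ b ∈ BB, ∃ γ, x = op b (tr γ) := by
    intro x hx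
    induction hx using Submonoid.closure_induction with
    | mem x hx => exact hx
    | one => exact ⟨1, BB.one_mem, 0, by rw [tr_zero', op_one]⟩
    | mul x y _ _ h h' =>
      obtain ⟨b, hb, γ, rfl⟩ := h
      obtain ⟨b', hb', γ', rfl⟩ := h'
      refine ⟨fun ω => b ω * b' (tr γ ω), BB.mul_mem hb (BB_tr hb' γ), γ' + γ, ?_⟩
      rw [op_mul]
      congr 1
      funext ω
      rw [tr_tr]
  induction ht using AddSubgroup.closure_induction with
  | mem x hx =>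
    obtain ⟨b, hb, γ, rfl⟩ := hP x hx
    refine ⟨Finsupp.single γ b, fun δ => ?_, ?_⟩
    · rw [Finsupp.single_apply]
      split_ifs
      · exact hb
      · exact BB.zero_mem
    · exact (Finsupp.sum_single_index (h := fun γ b => op b (tr γ)) (op_zero _)).symm
  | zero => exact ⟨0, fun _ => BB.zero_mem, by simp⟩
  | add x y _ _ h h' =>
    obtain ⟨c, hc, rfl⟩ := h
    obtain ⟨c', hc', rfl⟩ := h'
    refine ⟨c + c', fun γ => BB.add_mem (hc γ) (hc' γ), ?_⟩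
    exact (Finsupp.sum_add_index' (h := fun γ b => op b (tr γ)) (fun γ => op_zero _) (fun γ b b' => op_add b b' _)).symm
  | neg x _ h =>
    obtain ⟨c, hc, rfl⟩ := h
    refine ⟨-c, fun γ => BB.neg_mem (hc γ), ?_⟩
    refine Eq.trans ?_ (Finsupp.sum_neg_index (g := c) (h := fun γ b => op b (tr γ)) (fun γ => op_zero _)).symm
    rw [Finsupp.sum, Finsupp.sum, ← Finset.sum_neg_distrib]
    exact Finset.sum_congr rfl fun γ _ => (op_neg _ _).symm

end Pool.Agent.Q93.GS
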