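import Mathlib
import Pool.Agent.Q93.GS.Conc

/-! The system of `Conc` satisfies the hypotheses of `Abs`. -/

set_option autoImplicit false

namespace Pool.Agent.Q93.GS

lemma ac_self (f : YY → ZMod 2) (ω : Om) : ac f (ac f ω) = ω := by
  rw [ac_ac]
  have : f + f = 0 := by
    funext y
    exact add_self2 _
  rw [this, ac_zero]

lemma op_congr {b b' : Om → ℚ} {θ θ' : Om → Om} (hb : ∀ ω, b ω = b' ω) (hθ : ∀ ω, θ ω = θ' ω) : op b θ = op b' θ' := by
  rw [funext hb, funext hθ]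

/-- the units -/
noncomputable def un (n : LL →₀ ZMod 2) (f : LL) : TTˣ where
  val := op (fun ω => ch (EE n ω)) (ac f)
  inv := op (fun ω => ch (EE n (ac f ω))) (ac f)
  val_inv := by
    rw [op_mul, ← op_one]
    congr 1
    · funext ω
      rw [ac_self, ch_sq]
      rfl
    · funext ω
      rw [ac_self]
  inv_val := by
    rw [op_mul, ← op_one]
    congr 1
    · funext ω
      rw [ch_sq]
      rfl
    · funext ω
      rw [ac_self]

/-- the group -/
noncomputable def GW : Subgroup TTˣ where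
  carrier := {u | ∃ n f, u = un n f}
  one_mem' := by
    refine ⟨0, 0, ?_⟩
    apply Units.ext
    show (1 : TT) = op (fun ω => ch (EE 0 ω)) (ac ((0 : LL) : YY → ZMod 2))
    rw [← op_one]
    refine op_congr (fun ω => ?_) (fun ω => ?_)
    · rw [map_zero]
      exact ch_zero.symm
    · exact (ac_zero ω).symm
  mul_mem' := by
    rintro _ _ ⟨n, f, rfl⟩ ⟨n', f', rfl⟩
    obtain ⟨n'', h⟩ := EE_shift n' f
    refine ⟨n + n'', f' + f, ?_⟩
    apply Units.ext
    show op (fun ω => ch (EE n ω)) (ac f) * op (fun ω => ch (EE n' ω)) (ac f') = op (fun ω => ch (EE (n + n'') ω)) (ac _)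
    rw [op_mul]
    congr 1
    · funext ω
      rw [h, map_add, Pi.add_apply, ch_add]
    · funext ω
      exact ac_ac _ _ _
  inv_mem' := by
    rintro _ ⟨n, f, rfl⟩
    obtain ⟨n'', h⟩ := EE_shift n f
    refine ⟨n'', f, ?_⟩
    apply Units.ext
    show op (fun ω => ch (EE n (ac f ω))) (ac f) = op (fun ω => ch (EE n'' ω)) (ac f)
    congr 1
    funext ω
    rw [h]

/-- the inclusion -/
noncomputable abbrev ww : GW →* TTˣ := GW.subtype

theorem norm : Norm AA ww := by
  rintro ⟨_, n, f, rfl⟩ a ha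
  show op (fun ω => ch (EE n ω)) (ac f) * a * op (fun ω => ch (EE n (ac f ω))) (ac f) ∈ AA
  induction ha using Subring.closure_induction with
  | mem x hx =>
    obtain ⟨b, hb, γ, rfl⟩ := hx
    rw [op_mul, op_mul]
    have : op (fun ω => ch (EE n ω) * b (ac f ω) * ch (EE n (ac f (tr γ (ac f ω))))) (fun ω => ac f (tr γ (ac f ω))) =
        op ((fun ω => b (ac f ω)) * (fun ω => ch (EE n (tr γ ω) + EE n ω))) (tr γ) := by
      congr 1
      · funext ω
        rw [ac_tr, ac_self, Pi.mul_apply, ch_add]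
        ring
      · funext ω
        rw [ac_tr, ac_self]
    rw [this]
    apply op_mem
    apply BB.mul_mem (BB_ac hb f)
    obtain ⟨m, hm⟩ := EE_cob n γ
    refine ⟨m, fun ω ω' h => ?_⟩
    show ch _ = ch _
    rw [hm ω ω' h]
  | zero => simp only [mul_zero, zero_mul]; exact AA.zero_mem
  | one =>
    rw [mul_one]
    have := (un n f).mul_inv
    have h : op (fun ω => ch (EE n ω)) (ac f) * op (fun ω => ch (EE n (ac f ω))) (ac f) = 1 := this
    rw [h]
    exact AA.one_mem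
  | add x y _ _ h h' =>
    rw [mul_add, add_mul]
    exact AA.add_mem h h'
  | neg x _ h =>
    have e : op (fun ω => ch (EE n ω)) (ac f) * (-x) * op (fun ω => ch (EE n (ac f ω))) (ac f) =
        -(op (fun ω => ch (EE n ω)) (ac f) * x * op (fun ω => ch (EE n (ac f ω))) (ac f)) := by
      apply LinearMap.ext
      intro F
      show op (fun ω => ch (EE n ω)) (ac f) ((-x) (op (fun ω => ch (EE n (ac f ω))) (ac f) F)) =
        -(op (fun ω => ch (EE n ω)) (ac f) (x (op (fun ω => ch (EE n (ac f ω))) (ac f) F)))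
      rw [LinearMap.neg_apply, map_neg]
    rw [e]
    exact AA.neg_mem h
  | mul x y _ _ h h' =>
    have := AA.mul_mem h h'
    have e : op (fun ω => ch (EE n ω)) (ac f) * x * op (fun ω => ch (EE n (ac f ω))) (ac f) *
        (op (fun ω => ch (EE n ω)) (ac f) * y * op (fun ω => ch (EE n (ac f ω))) (ac f)) =
        op (fun ω => ch (EE n ω)) (ac f) * (x * y) * op (fun ω => ch (EE n (ac f ω))) (ac f) := by
      have h0 : op (fun ω => ch (EE n (ac f ω))) (ac f) * op (fun ω => ch (EE n ω)) (ac f) = 1 := (un n f).inv_mul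
      calc _ = op (fun ω => ch (EE n ω)) (ac f) * x * (op (fun ω => ch (EE n (ac f ω))) (ac f) *
            op (fun ω => ch (EE n ω)) (ac f)) * y * op (fun ω => ch (EE n (ac f ω))) (ac f) := by
            simp only [mul_assoc]
        _ = _ := by
            rw [h0]
            simp only [mul_assoc, one_mul]
    rwa [e] at this

open Classical in
/-- the indicator of a cell -/
noncomputable def ind (m : ℕ) (ω₀ ω : Om) : ℚ := if rel m ω₀ ω then 1 else 0

lemma ind_mem (m : ℕ) (ω₀ : Om) : ind m ω₀ ∈ BB := by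
  refine ⟨m, fun ω ω' h => ?_⟩
  unfold ind
  by_cases h1 : rel m ω₀ ω
  · rw [if_pos h1, if_pos (h1.trans h)]
  · rw [if_neg h1, if_neg fun h2 => h1 (h2.trans h.symm)]

lemma sum_apply' (c : Gm →₀ (Om → ℚ)) (F : Om → ℚ) (ω : Om) :
    (c.sum (fun γ b => op b (tr γ)) : TT) F ω = ∑ γ ∈ c.support, c γ ω * F (tr γ ω) := by
  rw [Finsupp.sum, LinearMap.sum_apply, Finset.sum_apply]
  rfl

lemma uniform {α : Type} (S : Finset α) (P : α → ℕ → Prop) (hP : ∀ x m n, m ≤ n → P x m → P x n)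
    (h : ∀ x ∈ S, ∃ m, P x m) : ∃ m, ∀ x ∈ S, P x m := by
  classical
  induction S using Finset.induction_on with
  | empty => exact ⟨0, fun x hx => absurd hx (Finset.notMem_empty x)⟩
  | insert a s _ ih =>
    obtain ⟨m, hm⟩ := ih fun x hx => h x (Finset.mem_insert_of_mem hx)
    obtain ⟨n, hn⟩ := h a (Finset.mem_insert_self a s)
    refine ⟨max m n, fun x hx => ?_⟩
    rcases Finset.mem_insert.1 hx with rfl | hx
    · exact hP _ _ _ (le_max_right _ _) hn
    · exact hP _ _ _ (le_max_left _ _) (hm x hx)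

lemma sum_ne {D : Type} [Fintype D] (F : D → Om → ℚ) (h0 : ∀ d ω, 0 ≤ F d ω) (ω : Om) (d : D) (h1 : F d ω = 1) :
    (∑ d, F d) ω ≠ 0 := by
  intro h
  rw [Finset.sum_apply] at h
  have h2 := Finset.single_le_sum (f := fun d : D => F d ω) (fun d _ => h0 d ω) (Finset.mem_univ d)
  rw [h] at h2
  simp only [h1] at h2
  norm_num at h2

lemma sum_mem_J {D : Type} [Fintype D] (J : AddSubgroup TT) (F : D → Om → ℚ) (h : ∀ d, op (F d) (fun ω => ω) ∈ J) :
    op (∑ d, F d) (fun ω => ω) ∈ J := by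
  classical
  have : ∀ s : Finset D, op (∑ d ∈ s, F d) (fun ω => ω) ∈ J := by
    intro s
    induction s using Finset.induction_on with
    | empty =>
      rw [Finset.sum_empty, op_zero]
      exact J.zero_mem
    | insert a s ha ih =>
      rw [Finset.sum_insert ha, op_add]
      exact J.add_mem (h _) ih
  exact this Finset.univ

/-- elements of the finite subgroup -/
noncomputable def gp (M : ℕ) (p : Fin M → ZMod 2) : Gm :=
  Finsupp.onFinset (Finset.range M) (fun i => if h : i < M then p ⟨i, h⟩ else 0) (by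
    intro i hi
    rw [Finset.mem_range]
    by_contra h
    rw [dif_neg h] at hi
    exact hi rfl)

lemma gp_lt {M : ℕ} (p : Fin M → ZMod 2) {i : ℕ} (h : i < M) : gp M p i = p ⟨i, h⟩ := dif_pos h

lemma gp_ge {M : ℕ} (p : Fin M → ZMod 2) {i : ℕ} (h : ¬ i < M) : gp M p i = 0 := dif_neg h

lemma gp_eq {M : ℕ} {s : Gm} (hs : InG M s) (p : Fin M → ZMod 2) (hp : ∀ i : Fin M, p i = s i) : gp M p = s := by
  ext i
  by_cases h : i < M
  · rw [gp_lt p h, hp]
  · rw [gp_ge p h, hs i (not_lt.1 h)]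

/-- the functions of level `M` -/
def fq (M : ℕ) (q : (Fin M → ZMod 2) → ZMod 2) : LL := ⟨fun y => q fun i => y i, M, fun y y' h =>
  congrArg q (funext fun i => h i i.2)⟩

lemma exists_cell (M : ℕ) (ω₀ ω : Om) : ∃ p q, rel M ω₀ (ac (fq M q) (tr (gp M p) ω)) := by
  refine ⟨fun i => ω₀.1 i + ω.1 i, fun v => ω₀.2 (gp M fun i => v i + ω₀.1 i) +
    (tr (gp M fun i => ω₀.1 i + ω.1 i) ω).2 (gp M fun i => v i + ω₀.1 i), fun i hi => ?_, fun s hs => ?_⟩
  · show ω₀.1 i = ω.1 i + gp M _ i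
    rw [gp_lt _ hi]
    have := add_self2 (ω.1 i)
    linear_combination -this
  · show ω₀.2 s = (tr (gp M fun i => ω₀.1 i + ω.1 i) ω).2 s +
      (ω₀.2 (gp M fun i => (ω.1 i + gp M (fun j => ω₀.1 j + ω.1 j) i + s i) + ω₀.1 i) +
      (tr (gp M fun i => ω₀.1 i + ω.1 i) ω).2 (gp M fun i => (ω.1 i + gp M (fun j => ω₀.1 j + ω.1 j) i + s i) + ω₀.1 i))
    have key : gp M (fun i => (ω.1 i + gp M (fun j => ω₀.1 j + ω.1 j) i + s i) + ω₀.1 i) = s := by
      apply gp_eq hs
      intro i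
      rw [gp_lt _ i.2]
      have := add_self2 (ω.1 i)
      have h2 := add_self2 (ω₀.1 i)
      show ω.1 i + (ω₀.1 i + ω.1 i) + s i + ω₀.1 i = s i
      linear_combination this + h2
    rw [key]
    have := add_self2 ((tr (gp M fun i => ω₀.1 i + ω.1 i) ω).2 s)
    linear_combination -this

theorem invSimple : InvSimple AA ww := by
  classical
  rintro J hJA hJm hJw ⟨x, hx, hx0⟩
  obtain ⟨c, hc, hxc⟩ := nf (hJA x hx)
  obtain ⟨γ₀, ω₀, hne⟩ : ∃ γ ω, c γ ω ≠ 0 := by
    by_contra hcon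
    push Not at hcon
    apply hx0
    rw [hxc, Finsupp.sum]
    refine Finset.sum_eq_zero fun γ _ => ?_
    have : c γ = 0 := funext (hcon γ)
    rw [this, op_zero]
  obtain ⟨M₁, hM₁⟩ := uniform c.support (fun γ m => InG m (γ₀ + γ)) (fun _ _ _ h h' => h'.mono h)
    (fun γ _ => exists_InG _)
  obtain ⟨M₂, hM₂⟩ := hc γ₀
  obtain ⟨M, hM⟩ : ∃ M, M = max M₁ M₂ := ⟨_, rfl⟩
  have hM1 : ∀ γ ∈ c.support, InG M (γ₀ + γ) := fun γ hγ => (hM₁ γ hγ).mono (by rw [hM]; exact le_max_left _ _)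
  have hM2 : ∀ ω, rel M ω₀ ω → c γ₀ ω = c γ₀ ω₀ := fun ω h =>
    (hM₂ _ _ (h.mono (by rw [hM]; exact le_max_right _ _))).symm
  have hindA : op (ind M ω₀) (fun ω => ω) ∈ AA := op_mem' (ind_mem M ω₀)
  have h1 : op (ind M ω₀) (fun ω => ω) * x * (op 1 (tr γ₀) * op (ind M ω₀) (fun ω => ω)) ∈ J :=
    (hJm _ (AA.mul_mem (op_mem BB.one_mem γ₀) hindA) _ ((hJm _ hindA x hx).1)).2
  have e1 : op (fun _ => (c γ₀ ω₀)⁻¹) (fun ω => ω) *
      (op (ind M ω₀) (fun ω => ω) * x * (op 1 (tr γ₀) * op (ind M ω₀) (fun ω => ω))) = op (ind M ω₀) (fun ω => ω) := by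
    apply LinearMap.ext
    intro F
    funext ω
    show (c γ₀ ω₀)⁻¹ * (ind M ω₀ ω * (x (fun ω' => (1 : Om → ℚ) ω' * (ind M ω₀ (tr γ₀ ω') * F (tr γ₀ ω')))) ω) = ind M ω₀ ω * F ω
    by_cases hr : rel M ω₀ ω
    · rw [hxc, sum_apply', Finset.sum_eq_single γ₀]
      · rw [tr_self, hM2 ω hr]
        have : ind M ω₀ ω = 1 := if_pos hr
        rw [this, Pi.one_apply]
        field_simp
      · intro γ hγ hne
        have : ind M ω₀ (tr γ₀ (tr γ ω)) = 0 := by
          apply if_neg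
          intro h
          apply hne
          rw [tr_tr] at h
          have h0 : γ₀ + γ = 0 := by
            ext i
            by_cases hi : i < M
            · have e1 := h.1 i hi
              have e2 := hr.1 i hi
              have e3 : ω.1 i + (γ₀ + γ) i = ω.1 i := e1.symm.trans e2
              simpa using e3
            · exact hM1 γ hγ i (not_lt.1 hi)
          have h2 := gm_add_self γ₀
          have h3 : γ₀ + γ₀ = γ₀ + γ := h2.trans h0.symm
          exact (add_left_cancel h3).symm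
        rw [this]
        ring
      · intro h
        rw [Finsupp.notMem_support_iff.1 h]
        simp
    · have : ind M ω₀ ω = 0 := if_neg hr
      rw [this]
      ring
  have hV : op (ind M ω₀) (fun ω => ω) ∈ J := by
    rw [← e1]
    exact (hJm _ (op_mem' (b := fun _ => (c γ₀ ω₀)⁻¹) ⟨0, fun _ _ _ => rfl⟩) _ h1).1
  have hVt : ∀ (γ : Gm) (f : LL), op (fun ω => ind M ω₀ (ac f (tr γ ω))) (fun ω => ω) ∈ J := by
    intro γ f
    have h2 := hJw ⟨un 0 f, 0, f, rfl⟩ _ hV
    have e2 : (((ww ⟨un 0 f, 0, f, rfl⟩ : TTˣ)) : TT) * op (ind M ω₀) (fun ω => ω) * (((ww ⟨un 0 f, 0, f, rfl⟩)⁻¹ : TTˣ) : TT) =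
        op (fun ω => ind M ω₀ (ac f ω)) (fun ω => ω) := by
      show op (fun ω => ch (EE 0 ω)) (ac f) * op (ind M ω₀) (fun ω => ω) * op (fun ω => ch (EE 0 (ac f ω))) (ac f) = _
      rw [op_mul, op_mul]
      congr 1
      · funext ω
        rw [map_zero]
        show ch 0 * ind M ω₀ (ac f ω) * ch 0 = _
        rw [ch_zero]
        ring
      · funext ω
        exact ac_self _ _
    rw [e2] at h2
    have h3 := (hJm _ (op_mem BB.one_mem γ) _ (hJm _ (op_mem BB.one_mem γ) _ h2).1).2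
    rw [op_mul, op_mul] at h3
    have e3 : op (fun ω => (1 : Om → ℚ) ω * ind M ω₀ (ac f (tr γ ω)) * (1 : Om → ℚ) (tr γ ω)) (fun ω => tr γ (tr γ ω)) =
        op (fun ω => ind M ω₀ (ac f (tr γ ω))) (fun ω => ω) := by
      congr 1
      · funext ω
        rw [Pi.one_apply, Pi.one_apply, one_mul, mul_one]
      · funext ω
        exact tr_self _ _
    rwa [e3] at h3
  obtain ⟨D, iD, p, q, hD⟩ : ∃ (D : Type) (_ : Fintype D) (p : D → Gm) (q : D → LL), ∀ ω, ∃ d, rel M ω₀ (ac (q d) (tr (p d) ω)) :=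
    ⟨(Fin M → ZMod 2) × ((Fin M → ZMod 2) → ZMod 2), inferInstance, fun d => gp M d.1, fun d => fq M d.2, fun ω => by
      obtain ⟨p, q, h⟩ := exists_cell M ω₀ ω
      exact ⟨(p, q), h⟩⟩
  obtain ⟨F, hF⟩ : ∃ F : D → Om → ℚ, F = fun d ω => ind M ω₀ (ac (q d) (tr (p d) ω)) := ⟨_, rfl⟩
  obtain ⟨S, hS⟩ : ∃ S : Om → ℚ, S = ∑ d, F d := ⟨_, rfl⟩
  have hSJ : op S (fun ω => ω) ∈ J := by
    rw [hS]
    exact sum_mem_J J F fun d => by rw [hF]; exact hVt _ _
  have hSB : S ∈ BB := by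
    rw [hS]
    exact sum_mem fun d _ => by rw [hF]; exact BB_tr (BB_ac (ind_mem M ω₀) _) _
  have hS1 : ∀ ω, S ω ≠ 0 := by
    intro ω
    obtain ⟨d, hd⟩ := hD ω
    rw [hS]
    refine sum_ne F (fun d ω => ?_) ω d ?_
    · rw [hF]
      show 0 ≤ ind M ω₀ _
      unfold ind
      split_ifs <;> norm_num
    · rw [hF]
      exact if_pos hd
  have hSi : (fun ω => (S ω)⁻¹) ∈ BB := by
    obtain ⟨m, hm⟩ := hSB
    refine ⟨m, fun ω ω' h => ?_⟩
    show (S ω)⁻¹ = (S ω')⁻¹
    rw [hm ω ω' h]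
  have h4 := (hJm _ (op_mem' hSi) _ hSJ).1
  rw [op_mul] at h4
  have e4 : op (fun ω => (S ω)⁻¹ * S ω) (fun ω => ω) = 1 := by
    rw [← op_one]
    congr 1
    funext ω
    rw [inv_mul_cancel₀ (hS1 ω)]
    rfl
  rwa [e4] at h4

end Pool.Agent.Q93.GS
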