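import Mathlib
import Pool.Agent.Q93.GS.Conc2

/-! No homogeneous element of nontrivial degree commutes with the component of degree one. -/

set_option autoImplicit false

namespace Pool.Agent.Q93.GS

lemma sepf {m : ℕ} {f g : YY → ZMod 2} (hf : lev m f) (hg : lev m g) (hne : f ≠ g) (y : YY) :
    ∃ s, InG m s ∧ f (fun i => y i + s i) ≠ g (fun i => y i + s i) := by
  obtain ⟨y', hy'⟩ := Function.ne_iff.1 hne
  refine ⟨gp m fun i => y i + y' i, fun i hi => gp_ge _ (not_lt.2 hi), ?_⟩
  have h : ∀ i < m, (fun i => y i + gp m (fun i => y i + y' i) i) i = y' i := by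
    intro i hi
    show y i + gp m (fun i => y i + y' i) i = y' i
    rw [gp_lt _ hi]
    have := add_self2 (y i)
    linear_combination this
  rw [hf _ _ h, hg _ _ h]
  exact hy'

lemma sepp {ω p : Om} (h : ω ≠ p) : ∃ b ∈ BB, b ω ≠ b p := by
  classical
  by_cases h1 : ∃ i, ω.1 i ≠ p.1 i
  · obtain ⟨i, hi⟩ := h1
    refine ⟨fun x => if x.1 i = ω.1 i then 1 else 0, ⟨i + 1, fun x x' hx => ?_⟩, ?_⟩
    · show (if x.1 i = ω.1 i then (1 : ℚ) else 0) = if x'.1 i = ω.1 i then 1 else 0
      rw [hx.1 i (by omega)]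
    · show (if ω.1 i = ω.1 i then (1 : ℚ) else 0) ≠ if p.1 i = ω.1 i then 1 else 0
      rw [if_pos rfl, if_neg (Ne.symm hi)]
      norm_num
  · push Not at h1
    have h2 : ∃ s, ω.2 s ≠ p.2 s := by
      by_contra hcon
      push Not at hcon
      exact h (Prod.ext (funext h1) (funext hcon))
    obtain ⟨s, hs⟩ := h2
    obtain ⟨m, hm⟩ := exists_InG s
    refine ⟨fun x => if x.2 s = ω.2 s then 1 else 0, ⟨m, fun x x' hx => ?_⟩, ?_⟩
    · show (if x.2 s = ω.2 s then (1 : ℚ) else 0) = if x'.2 s = ω.2 s then 1 else 0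
      rw [hx.2 s hm]
    · show (if ω.2 s = ω.2 s then (1 : ℚ) else 0) ≠ if p.2 s = ω.2 s then 1 else 0
      rw [if_pos rfl, if_neg (Ne.symm hs)]
      norm_num

lemma two_ne (a : ZMod 2) (h : a ≠ 0) : a = 1 := by
  revert a
  decide

lemma EE_sub (n : LL →₀ ZMod 2) (f₀ : LL) (ω ω' : Om) (h : ∀ f ∈ n.support, f ≠ f₀ → ep (ac f ω) = ep (ac f ω')) :
    EE n ω + EE n ω' = n f₀ * (ep (ac f₀ ω) + ep (ac f₀ ω')) := by
  rw [EE_apply, EE_apply, ← Finset.sum_add_distrib]
  rw [Finset.sum_eq_single f₀]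
  · ring
  · intro f hf hne
    rw [h f hf hne, add_self2]
  · intro hf
    rw [Finsupp.notMem_support_iff.1 hf]
    ring

lemma EE_congr (n : LL →₀ ZMod 2) (ω ω' : Om) (h : ∀ f ∈ n.support, ep (ac f ω) = ep (ac f ω')) : EE n ω = EE n ω' := by
  rw [EE_apply, EE_apply]
  exact Finset.sum_congr rfl fun f hf => by rw [h f hf]

lemma add_cast {k : ℕ} : ((k + 1 : ℕ) : ZMod 2) + ((k + 1 + 1 : ℕ) : ZMod 2) = 1 := by
  push_cast
  have h1 := add_self2 (k : ZMod 2)
  have h2 := add_self2 (1 : ZMod 2)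
  linear_combination h1 + h2

theorem two_window (n : LL →₀ ZMod 2) (hn : n ≠ 0) (b : Om → ℚ) (hb : b ∈ BB)
    (hφ : ∀ γ ω, b ω * ch (EE n ω) = b (tr γ ω) * ch (EE n (tr γ ω))) : b = 0 := by
  classical
  obtain ⟨f₀, hf₀⟩ := Finsupp.support_nonempty_iff.2 hn
  obtain ⟨m₀, hm₀⟩ := uniform n.support (fun f m => lev m (f : YY → ZMod 2)) (fun _ _ _ h h' => h'.mono h) (fun f _ => f.2)
  obtain ⟨m₁, hm₁⟩ := hb
  obtain ⟨m, hmm⟩ : ∃ m, m = max (m₀ + 1) m₁ := ⟨_, rfl⟩
  have h0m : m₀ < m := by
    have := le_max_left (m₀ + 1) m₁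
    omega
  have hlev : ∀ f ∈ n.support, lev m (f : YY → ZMod 2) := fun f hf => (hm₀ f hf).mono h0m.le
  have hbm : ∀ ω ω', rel m ω ω' → b ω = b ω' := fun ω ω' h => hm₁ _ _ (h.mono (by rw [hmm]; exact le_max_right _ _))
  have claim1 : ∀ ω : Om, (∀ s, InG m s → ω.2 s = (f₀ : YY → ZMod 2) (fun i => ω.1 i + s i)) → b ω = 0 := by
    intro ω hω
    obtain ⟨X, hX⟩ : ∃ X : ℕ → Om, X = fun k => (ω.1, fun t => if InG k t then (f₀ : YY → ZMod 2) (fun i => ω.1 i + t i)
        else if InG (m + 2) t then (f₀ : YY → ZMod 2) (fun i => ω.1 i + t i) + 1 else t m₀) := ⟨_, rfl⟩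
    have hX1 : ∀ k, (X k).1 = ω.1 := fun k => by rw [hX]
    have hXa : ∀ k t, InG k t → (X k).2 t = (f₀ : YY → ZMod 2) (fun i => ω.1 i + t i) := fun k t h => by
      rw [hX]
      exact if_pos h
    have hXb : ∀ k t, ¬ InG k t → InG (m + 2) t → (X k).2 t = (f₀ : YY → ZMod 2) (fun i => ω.1 i + t i) + 1 := fun k t h h' => by
      rw [hX]
      exact (if_neg h).trans (if_pos h')
    have hXc : ∀ k t, ¬ InG k t → ¬ InG (m + 2) t → (X k).2 t = t m₀ := fun k t h h' => by
      rw [hX]
      exact (if_neg h).trans (if_neg h')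
    have hrel : ∀ k, m ≤ k → rel m ω (X k) := by
      intro k hk
      refine ⟨fun i _ => by rw [hX1], fun s hs => ?_⟩
      rw [hω s hs, hXa k s (hs.mono hk)]
    have hep0 : ∀ k, m ≤ k → k ≤ m + 1 → ep (ac f₀ (X k)) = ((k + 1 : ℕ) : ZMod 2) := by
      intro k h1 h2
      unfold ep
      rw [nn_eq]
      · intro s hs
        show (X k).2 s + (f₀ : YY → ZMod 2) (fun i => (X k).1 i + s i) = 0
        rw [hX1, hXa k s hs, add_self2]
      · refine ⟨Finsupp.single k 1, ?_, ?_⟩
        · intro i hi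
          rw [Finsupp.single_apply, if_neg (by omega)]
        · show (X k).2 (Finsupp.single k 1) + (f₀ : YY → ZMod 2) (fun i => (X k).1 i + (Finsupp.single k 1 : Gm) i) ≠ 0
          rw [hX1, hXb]
          · intro h
            have := add_self2 ((f₀ : YY → ZMod 2) (fun i => ω.1 i + (Finsupp.single k 1 : Gm) i))
            have h3 : (1 : ZMod 2) = 0 := by linear_combination h - this
            exact one_ne_zero h3
          · intro h
            have := h k le_rfl
            rw [Finsupp.single_eq_same] at this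
            exact one_ne_zero this
          · intro i hi
            rw [Finsupp.single_apply, if_neg (by omega)]
    have hepf : ∀ f ∈ n.support, f ≠ f₀ → ep (ac f (X m)) = ep (ac f (X (m + 1))) := by
      intro f hf hne
      unfold ep
      rw [nn_loc (m := m)]
      · intro s hs
        show (X m).2 s + (f : YY → ZMod 2) (fun i => (X m).1 i + s i) = (X (m + 1)).2 s + (f : YY → ZMod 2) (fun i => (X (m + 1)).1 i + s i)
        rw [hX1, hX1, hXa m s hs, hXa (m + 1) s (hs.mono (by omega))]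
      · obtain ⟨s, hs, h⟩ := sepf (hlev f hf) (hlev f₀ hf₀) (fun e => hne (Subtype.ext e)) ω.1
        refine ⟨s, hs, ?_⟩
        show (X m).2 s + (f : YY → ZMod 2) (fun i => (X m).1 i + s i) ≠ 0
        rw [hX1, hXa m s hs]
        intro h0
        apply h
        have := add_self2 ((f₀ : YY → ZMod 2) (fun i => ω.1 i + s i))
        linear_combination h0 - this
    have hE := EE_sub n f₀ (X m) (X (m + 1)) hepf
    rw [hep0 m le_rfl (by omega), hep0 (m + 1) (by omega) le_rfl, add_cast, two_ne _ (Finsupp.mem_support_iff.1 hf₀)] at hE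
    -- the far window
    obtain ⟨γ, hγ⟩ : ∃ γ : Gm, γ = Finsupp.single (m + 2) 1 := ⟨_, rfl⟩
    have hγ1 : γ (m + 2) = 1 := by rw [hγ, Finsupp.single_eq_same]
    have hγ0 : γ m₀ = 0 := by rw [hγ, Finsupp.single_apply, if_neg (by omega)]
    have hfar : ∀ k, m ≤ k → k ≤ m + 1 → ∀ s, InG m s → (tr γ (X k)).2 s = s m₀ := by
      intro k h1 h2 s hs
      show (X k).2 (s + γ) = s m₀
      have hnot : ∀ j, j ≤ m + 2 → ¬ InG j (s + γ) := by
        intro j hj h
        have := h (m + 2) (by omega)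
        rw [Finsupp.add_apply, hs (m + 2) (by omega), hγ1, zero_add] at this
        exact one_ne_zero this
      rw [hXc k _ (hnot k (by omega)) (hnot _ le_rfl), Finsupp.add_apply, hγ0, add_zero]
    have hfar1 : ∀ k, (tr γ (X k)).1 = fun i => ω.1 i + γ i := fun k => by
      show (fun i => (X k).1 i + γ i) = _
      rw [hX1]
    have hE2 : EE n (tr γ (X m)) = EE n (tr γ (X (m + 1))) := by
      apply EE_congr
      intro f hf
      unfold ep
      rw [nn_loc (m := m)]
      · intro s hs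
        show (tr γ (X m)).2 s + (f : YY → ZMod 2) (fun i => (tr γ (X m)).1 i + s i) =
          (tr γ (X (m + 1))).2 s + (f : YY → ZMod 2) (fun i => (tr γ (X (m + 1))).1 i + s i)
        rw [hfar m le_rfl (by omega) s hs, hfar (m + 1) (by omega) le_rfl s hs, hfar1, hfar1]
      · by_contra hcon
        push Not at hcon
        have h1 := hcon 0 (fun _ _ => rfl)
        have hs1 : InG m (Finsupp.single m₀ 1 : Gm) := by
          intro i hi
          rw [Finsupp.single_apply, if_neg (by omega)]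
        have h2 := hcon (Finsupp.single m₀ 1) hs1
        have h1' : (tr γ (X m)).2 0 + (f : YY → ZMod 2) (fun i => (tr γ (X m)).1 i + (0 : Gm) i) = 0 := h1
        have h2' : (tr γ (X m)).2 (Finsupp.single m₀ 1) + (f : YY → ZMod 2) (fun i => (tr γ (X m)).1 i + (Finsupp.single m₀ 1 : Gm) i) = 0 := h2
        rw [hfar m le_rfl (by omega) 0 (fun _ _ => rfl)] at h1'
        rw [hfar m le_rfl (by omega) _ hs1, Finsupp.single_eq_same] at h2'
        have h3 := hm₀ f hf (fun i => (tr γ (X m)).1 i + (0 : Gm) i) (fun i => (tr γ (X m)).1 i + (Finsupp.single m₀ 1 : Gm) i) (by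
          intro i hi
          show (tr γ (X m)).1 i + (0 : Gm) i = (tr γ (X m)).1 i + (Finsupp.single m₀ 1 : Gm) i
          rw [Finsupp.single_apply, if_neg (by omega)]
          rfl)
        rw [← h3] at h2'
        have h4 : (1 : ZMod 2) = 0 := by
          have h5 : (0 : Gm) m₀ = 0 := rfl
          rw [h5] at h1'
          linear_combination h2' - h1'
        exact one_ne_zero h4
    have hb2 : b (tr γ (X m)) = b (tr γ (X (m + 1))) := by
      apply hbm
      refine ⟨fun i _ => ?_, fun s hs => ?_⟩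
      · rw [hfar1, hfar1]
      · rw [hfar m le_rfl (by omega) s hs, hfar (m + 1) (by omega) le_rfl s hs]
    have e1 := hφ γ (X m)
    have e2 := hφ γ (X (m + 1))
    rw [hb2, hE2, ← e2, ← hbm ω (X m) (hrel m le_rfl), ← hbm ω (X (m + 1)) (hrel (m + 1) (by omega))] at e1
    have hE3 : EE n (X m) = EE n (X (m + 1)) + 1 := by
      have := add_self2 (EE n (X (m + 1)))
      linear_combination hE - this
    rw [hE3, ch_add] at e1
    have hc1 : ch 1 = -1 := by
      unfold ch
      rw [if_neg one_ne_zero]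
    rw [hc1] at e1
    have e3 : b ω * ch (EE n (X (m + 1))) = 0 := by linarith
    rcases mul_eq_zero.1 e3 with h | h
    · exact h
    · exact absurd h (ch_ne _)
  funext ω
  obtain ⟨ω', hω'⟩ : ∃ ω' : Om, ω' = (ω.1, fun t => if InG m t then ω.2 t else (f₀ : YY → ZMod 2) (fun i => ω.1 i + t i)) := ⟨_, rfl⟩
  have hr : rel m ω ω' := by
    rw [hω']
    exact ⟨fun _ _ => rfl, fun s hs => (if_pos hs).symm⟩
  have hz : b (tr (Finsupp.single m 1) ω') = 0 := by
    apply claim1
    intro s hs
    rw [hω']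
    show (if InG m (s + Finsupp.single m 1) then ω.2 (s + Finsupp.single m 1)
      else (f₀ : YY → ZMod 2) (fun i => ω.1 i + (s + Finsupp.single m 1 : Gm) i)) =
      (f₀ : YY → ZMod 2) (fun i => (ω.1 i + (Finsupp.single m 1 : Gm) i) + s i)
    rw [if_neg]
    · refine congrArg _ (funext fun i => ?_)
      rw [Finsupp.add_apply]
      ring
    · intro h
      have := h m le_rfl
      rw [Finsupp.add_apply, hs m le_rfl, Finsupp.single_eq_same, zero_add] at this
      exact one_ne_zero this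
  have h1 := hφ (Finsupp.single m 1) ω'
  rw [hz, zero_mul] at h1
  rcases mul_eq_zero.1 h1 with h | h
  · rw [hbm ω ω' hr]
    exact h
  · exact absurd h (ch_ne _)

lemma entry (c : Gm →₀ (Om → ℚ)) (n : LL →₀ ZMod 2) (f : LL) (γ₁ : Gm) (ω : Om)
    (hcomm : ∀ x ∈ AA, (c.sum (fun γ b => op b (tr γ)) : TT) * op (fun ω => ch (EE n ω)) (ac f) * x =
      x * ((c.sum (fun γ b => op b (tr γ)) : TT) * op (fun ω => ch (EE n ω)) (ac f)))
    (hne : ω ≠ ac f (tr γ₁ ω)) : c γ₁ ω = 0 := by
  classical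
  obtain ⟨b, hb, hbne⟩ := sepp hne
  have h1 := hcomm _ (op_mem' hb)
  obtain ⟨F, hF⟩ : ∃ F : Om → ℚ, F = fun x => if x = ac f (tr γ₁ ω) then 1 else 0 := ⟨_, rfl⟩
  have hFF : op b (fun ω => ω) F = b (ac f (tr γ₁ ω)) • F := by
    funext x
    show b x * F x = b (ac f (tr γ₁ ω)) * F x
    rw [hF]
    by_cases hx : x = ac f (tr γ₁ ω)
    · rw [hx]
    · simp only [if_neg hx, mul_zero]
  obtain ⟨t, ht⟩ : ∃ t : TT, t = (c.sum (fun γ b => op b (tr γ)) : TT) * op (fun ω => ch (EE n ω)) (ac f) := ⟨_, rfl⟩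
  rw [← ht] at h1
  have h2 : t (op b (fun ω => ω) F) ω = b ω * t F ω := congrFun (congrArg (fun z : TT => z F) h1) ω
  rw [hFF, map_smul] at h2
  have h2' : b (ac f (tr γ₁ ω)) * t F ω = b ω * t F ω := h2
  have h3 : t F ω = 0 := by
    have : (b ω - b (ac f (tr γ₁ ω))) * t F ω = 0 := by rw [sub_mul, h2', sub_self]
    rcases mul_eq_zero.1 this with h | h
    · exact absurd (sub_eq_zero.1 h) hbne
    · exact h
  have h4 : t F ω = c γ₁ ω * ch (EE n (tr γ₁ ω)) := by
    rw [ht]
    show (c.sum (fun γ b => op b (tr γ)) : TT) (fun ω' => ch (EE n ω') * F (ac f ω')) ω = _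
    rw [sum_apply', Finset.sum_eq_single γ₁]
    · rw [hF]
      simp
    · intro γ _ hγ
      have : ac f (tr γ ω) ≠ ac f (tr γ₁ ω) := by
        intro h
        apply hγ
        ext i
        have h5 : ω.1 i + γ i = ω.1 i + γ₁ i := congrFun (congrArg Prod.fst h) i
        exact add_left_cancel h5
      rw [hF]
      simp only [if_neg this, mul_zero]
    · intro h
      rw [Finsupp.notMem_support_iff.1 h]
      simp
  rw [h4] at h3
  rcases mul_eq_zero.1 h3 with h | h
  · exact h
  · exact absurd h (ch_ne _)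

theorem noComm : NoComm AA ww := by
  classical
  rintro ⟨_, n, f, rfl⟩ hg a ha hcomm
  obtain ⟨c, hc, rfl⟩ := nf ha
  have hcomm' : ∀ x ∈ AA, (c.sum (fun γ b => op b (tr γ)) : TT) * op (fun ω => ch (EE n ω)) (ac f) * x =
      x * ((c.sum (fun γ b => op b (tr γ)) : TT) * op (fun ω => ch (EE n ω)) (ac f)) := hcomm
  by_cases hf : f = 0
  · subst hf
    have hn : n ≠ 0 := by
      rintro rfl
      apply hg
      apply Subtype.ext
      apply Units.ext
      show op (fun ω => ch (EE 0 ω)) (ac ((0 : LL) : YY → ZMod 2)) = 1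
      rw [← op_one]
      refine op_congr (fun ω => ?_) (fun ω => ?_)
      · rw [map_zero]
        exact ch_zero
      · exact ac_zero ω
    have h1 : ∀ γ, γ ≠ 0 → c γ = 0 := by
      intro γ hγ
      funext ω
      apply entry c n 0 γ ω hcomm'
      intro h
      apply hγ
      ext i
      have h5 : ω.1 i = ω.1 i + γ i := congrFun (congrArg Prod.fst h) i
      have : γ i = 0 := by linear_combination -h5
      simpa using this
    have h2 : (c.sum (fun γ b => op b (tr γ)) : TT) = op (c 0) (fun ω => ω) := by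
      rw [Finsupp.sum, Finset.sum_eq_single 0]
      · rw [tr_zero']
      · intro γ _ hγ
        rw [h1 γ hγ, op_zero]
      · intro h
        rw [Finsupp.notMem_support_iff.1 h, op_zero]
    have h3 : c 0 = 0 := by
      apply two_window n hn (c 0) (hc 0)
      intro γ ω
      have h4 := hcomm' _ (op_mem BB.one_mem γ)
      rw [h2] at h4
      have h5 := congrFun (congrArg (fun z : TT => z (fun _ => (1 : ℚ))) h4) ω
      have h6 : c 0 ω * (ch (EE n ω) * (1 * 1)) = 1 * (c 0 (tr γ ω) * (ch (EE n (tr γ ω)) * 1)) := h5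
      linarith
    rw [h2, h3, op_zero]
  · rw [Finsupp.sum]
    refine Finset.sum_eq_zero fun γ _ => ?_
    have : c γ = 0 := by
      funext ω
      apply entry c n f γ ω hcomm'
      intro h
      have hγ : γ = 0 := by
        ext i
        have h5 : ω.1 i = ω.1 i + γ i := congrFun (congrArg Prod.fst h) i
        have : γ i = 0 := by linear_combination -h5
        simpa using this
      rw [hγ, tr_zero] at h
      obtain ⟨m, hm⟩ := f.2
      obtain ⟨s, -, hs⟩ := sepf hm (g := 0) (fun _ _ _ => rfl) (fun e => hf (Subtype.ext e)) ω.1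
      apply hs
      have h5 : ω.2 s = ω.2 s + (f : YY → ZMod 2) (fun i => ω.1 i + s i) := congrFun (congrArg Prod.snd h) s
      show (f : YY → ZMod 2) (fun i => ω.1 i + s i) = 0
      linear_combination -h5
    rw [this, op_zero]

theorem exV : ∃ g : GW, g ≠ 1 ∧ ∃ a ∈ AA, a ≠ 0 ∧ a * (ww g : TT) ∈ AA := by
  classical
  let Z : Om := (fun _ => 0, fun _ => 1)
  obtain ⟨b, hbd⟩ : ∃ b : Om → ℚ, b = fun ω => if ω.2 0 ≠ 0 then 1 else 0 := ⟨_, rfl⟩
  have hb : b ∈ BB := by
    refine ⟨0, fun ω ω' h => ?_⟩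
    rw [hbd]
    show (if ω.2 0 ≠ 0 then (1 : ℚ) else 0) = if ω'.2 0 ≠ 0 then 1 else 0
    rw [h.2 0 (fun _ _ => rfl)]
  refine ⟨⟨un (Finsupp.single 0 1) 0, _, _, rfl⟩, ?_, op b (fun ω => ω), op_mem' hb, ?_, ?_⟩
  · intro h
    have h1 : op (fun ω => ch (EE (Finsupp.single 0 1) ω)) (ac ((0 : LL) : YY → ZMod 2)) = 1 :=
      congrArg (fun z : GW => ((z : TTˣ) : TT)) h
    -- evaluate at the point with first nonzero window 1
    let P : Om := (fun _ => 0, fun t => if InG 0 t then 0 else 1)
    have h2 := congrFun (congrArg (fun z : TT => z (fun _ => (1 : ℚ))) h1) P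
    have h3 : ch (EE (Finsupp.single 0 1) P) * 1 = 1 := h2
    rw [EE_single, one_mul, mul_one] at h3
    have h4 : ep (ac ((0 : LL) : YY → ZMod 2) P) = 1 := by
      have : ac ((0 : LL) : YY → ZMod 2) P = P := ac_zero P
      rw [this]
      unfold ep
      rw [nn_eq (k := 0)]
      · norm_num
      · intro s hs
        exact if_pos hs
      · refine ⟨Finsupp.single 0 1, ?_, ?_⟩
        · intro i hi
          rw [Finsupp.single_apply, if_neg (by omega)]
        · show (if InG 0 (Finsupp.single 0 1 : Gm) then (0 : ZMod 2) else 1) ≠ 0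
          rw [if_neg]
          · exact one_ne_zero
          · intro h
            have := h 0 le_rfl
            rw [Finsupp.single_eq_same] at this
            exact one_ne_zero this
    rw [h4] at h3
    unfold ch at h3
    rw [if_neg one_ne_zero] at h3
    norm_num at h3
  · intro h
    have h2 := congrFun (congrArg (fun z : TT => z (fun _ => (1 : ℚ))) h) Z
    have h3 : b Z * 1 = 0 := h2
    rw [hbd] at h3
    have h4 : (if (1 : ZMod 2) ≠ 0 then (1 : ℚ) else 0) * 1 = 0 := h3
    rw [if_pos one_ne_zero] at h4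
    norm_num at h4
  · have e : op b (fun ω => ω) * op (fun ω => ch (EE (Finsupp.single 0 1) ω)) (ac ((0 : LL) : YY → ZMod 2)) = op b (fun ω => ω) := by
      rw [op_mul]
      refine op_congr (fun ω => ?_) (fun ω => ?_)
      · rw [hbd]
        show (if ω.2 0 ≠ 0 then (1 : ℚ) else 0) * ch (EE (Finsupp.single 0 1) ω) = if ω.2 0 ≠ 0 then 1 else 0
        by_cases h : ω.2 0 ≠ 0
        · rw [if_pos h, EE_single]
          have h1 : ep (ac ((0 : LL) : YY → ZMod 2) ω) = 0 := by
            have : ac ((0 : LL) : YY → ZMod 2) ω = ω := ac_zero ω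
            rw [this]
            unfold ep
            have : nn ω.2 = 0 := Nat.le_zero.1 (Nat.sInf_le ⟨0, fun _ _ => rfl, h⟩)
            rw [this]
            rfl
          rw [h1, mul_zero, ch_zero, mul_one]
        · rw [if_neg h, zero_mul]
      · exact ac_zero ω
    show op b (fun ω => ω) * op (fun ω => ch (EE (Finsupp.single 0 1) ω)) (ac ((0 : LL) : YY → ZMod 2)) ∈ AA
    rw [e]
    exact op_mem' hb

end Pool.Agent.Q93.GS
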